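import Pool.Agent.helper91.SI.Spec

set_option autoImplicit false

namespace Pool.Agent.helper91.SI

open Pool.Agent.helper20.IG (IsIndepDom IsISet iGraph)

lemma PA0_aux (hPAB : PAB_stmt) (n k : ℕ) (hn : n = 3 * k) (hk : 1 ≤ k) (S : Finset (Fin n))
    (hS : IsISet (SimpleGraph.pathGraph n) S) : ∀ m : ℕ, ∀ x ∈ S, x.val % 3 = 0 → n ≤ x.val + m → False := by
  obtain ⟨_, h2, h3⟩ := hPAB n k (Or.inl hn) hk (by omega) S hS
  intro m
  induction m using Nat.strong_induction_on with
  | _ m ih =>
    intro x hx hx3 hm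
    have hxn := x.isLt
    have h4 : x.val + 2 < n := by omega
    obtain ⟨u, hu, hau⟩ := hS.1.2 ⟨x.val + 2, h4⟩ (fun h => h3 _ h (by simp only []; omega))
    rw [SimpleGraph.pathGraph_adj] at hau
    simp only [] at hau
    rcases hau with hau | hau
    · have h5 : u = x := h2 u hu x hx (by omega)
      have h6 := congrArg Fin.val h5
      omega
    · exact ih (m - 3) (by omega) u hu (by omega) (by omega)

theorem PA0 (hPAB : PAB_stmt) : PA0_stmt := by
  intro n hn hn3
  obtain ⟨k, hk⟩ : ∃ k, n = 3 * k := ⟨n / 3, by omega⟩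
  have hk1 : 1 ≤ k := by omega
  have key : ∀ S : Finset (Fin n), IsISet (SimpleGraph.pathGraph n) S →
      S = Finset.univ.filter (fun x : Fin n => x.val % 3 = 1) := by
    intro S hS
    obtain ⟨h1, h2, h3⟩ := hPAB n k (Or.inl hk) hk1 (by omega) S hS
    have h4 : ∀ x ∈ S, x.val % 3 = 1 := by
      intro x hx
      have h5 := h3 x hx
      have h6 : x.val % 3 ≠ 0 := fun h => PA0_aux hPAB n k hk hk1 S hS n x hx h (by omega)
      omega
    ext y
    constructor
    · intro hy
      exact Finset.mem_filter.2 ⟨Finset.mem_univ _, h4 y hy⟩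
    · intro hy
      have hy3 := (Finset.mem_filter.1 hy).2
      have hyn := y.isLt
      obtain ⟨x, hx, hxj⟩ := h1 (y.val / 3) (by omega)
      have h7 := h4 x hx
      have h8 : x = y := Fin.ext (by omega)
      rw [← h8]
      exact hx
  refine ⟨fun e => ?_⟩
  have h9 : e.symm ⟨0, by omega⟩ = e.symm ⟨1, by omega⟩ :=
    Subtype.ext ((key _ (e.symm ⟨0, by omega⟩).2).trans (key _ (e.symm ⟨1, by omega⟩).2).symm)
  have h10 := e.symm.injective h9
  have h11 := congrArg Fin.val h10
  simp at h11

end Pool.Agent.helper91.SI
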